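import Mathlib

set_option autoImplicit false

namespace Pool.Agent.Results.MP_55ffcb_co.LargeDistance

open Finset

/-- `C` is a binary constant-weight code of length `n`, weight `w` and minimum distance at least
`d`; words are identified with their supports, subsets of `Fin n`, and the Hamming distance of two
words is the size of the symmetric difference of the supports. -/
def IsCode (n d w : ℕ) (C : Finset (Finset (Fin n))) : Prop :=
  (∀ s ∈ C, s.card = w) ∧ ∀ s ∈ C, ∀ t ∈ C, s ≠ t → d ≤ (symmDiff s t).card

open Classical in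
/-- `A(n,d,w)`: the largest size of a constant-weight code. -/
noncomputable def A (n d w : ℕ) : ℕ :=
  ((univ : Finset (Finset (Finset (Fin n)))).filter (IsCode n d w)).sup Finset.card

lemma le_A {n d w : ℕ} {C : Finset (Finset (Fin n))} (h : IsCode n d w C) : C.card ≤ A n d w := by
  classical
  unfold A
  apply Finset.le_sup (f := Finset.card)
  simp [h]

lemma A_le {n d w m : ℕ} (h : ∀ C, IsCode n d w C → C.card ≤ m) : A n d w ≤ m := by
  classical
  unfold A
  apply Finset.sup_le
  intro C hC
  exact h C (by simpa using hC)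

/-- cardinality of the symmetric difference of two sets of the same size -/
lemma card_symmDiff {n w : ℕ} {s t : Finset (Fin n)} (hs : s.card = w) (ht : t.card = w) :
    (symmDiff s t).card = 2 * (s \ t).card ∧ (s \ t).card + (s ∩ t).card = w ∧
      (t \ s).card = (s \ t).card := by
  have h1 : (s \ t).card + (s ∩ t).card = s.card := card_sdiff_add_card_inter s t
  have h2 : (t \ s).card + (t ∩ s).card = t.card := card_sdiff_add_card_inter t s
  rw [inter_comm] at h2
  have h3 : (symmDiff s t).card = (s \ t).card + (t \ s).card := by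
    rw [symmDiff_def, sup_eq_union, card_union_of_disjoint]
    exact disjoint_sdiff_sdiff
  omega

/-- the cyclic interval of length `w` starting at `a` -/
def arc (n : ℕ) [NeZero n] (w a : ℕ) : Finset (Fin n) :=
  (range w).image (fun t => (⟨(a + t) % n, Nat.mod_lt _ (NeZero.pos n)⟩ : Fin n))

lemma not_modEq {n x y : ℕ} (h1 : x < y) (h2 : y < x + n) : x % n ≠ y % n := by
  intro h
  have h3 : n ∣ y - x := (Nat.modEq_iff_dvd' h1.le).mp h
  have h4 := Nat.le_of_dvd (by omega) h3
  omega

lemma card_arc {n : ℕ} [NeZero n] {w a : ℕ} (hw : w ≤ n) : (arc n w a).card = w := by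
  unfold arc
  rw [card_image_of_injOn, card_range]
  intro t ht t' ht' h
  simp only [coe_range, Set.mem_Iio] at ht ht'
  simp only [Fin.mk.injEq] at h
  rcases lt_trichotomy t t' with h0 | h0 | h0
  · exact absurd h (not_modEq (by omega) (by omega))
  · exact h0
  · exact absurd h.symm (not_modEq (by omega) (by omega))

lemma mem_arc {n : ℕ} [NeZero n] {w a x : ℕ} (hx : x % n < n) :
    (⟨x % n, hx⟩ : Fin n) ∈ arc n w a ↔ ∃ t, t < w ∧ (a + t) % n = x % n := by
  unfold arc
  rw [mem_image]
  constructor
  · rintro ⟨t, ht, h⟩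
    exact ⟨t, mem_range.mp ht, by simpa using h⟩
  · rintro ⟨t, ht, h⟩
    exact ⟨t, mem_range.mpr ht, by simpa using h⟩

lemma card_sdiff_arc {n : ℕ} [NeZero n] {w v a b : ℕ} (hw : 2 * w ≤ n) (hvw : v ≤ w)
    (h1 : a + v ≤ b) (h2 : b + v ≤ a + n) : v ≤ (arc n w a \ arc n w b).card := by
  have hn : 0 < n := NeZero.pos n
  rcases le_or_gt (2 * (b - a)) n with hc | hc
  · have hsub : arc n v a ⊆ arc n w a \ arc n w b := by
      intro x hx
      unfold arc at hx
      rw [mem_image] at hx
      obtain ⟨t, ht, rfl⟩ := hx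
      rw [mem_range] at ht
      rw [mem_sdiff]
      refine ⟨(mem_arc _).mpr ⟨t, by omega, rfl⟩, ?_⟩
      rw [mem_arc]
      rintro ⟨t', ht', h⟩
      exact absurd h.symm (not_modEq (by omega) (by omega))
    exact (card_arc (a := a) (show v ≤ n by omega)).symm.le.trans (card_le_card hsub)
  · have hsub : arc n v (a + (w - v)) ⊆ arc n w a \ arc n w b := by
      intro x hx
      unfold arc at hx
      rw [mem_image] at hx
      obtain ⟨t, ht, rfl⟩ := hx
      rw [mem_range] at ht
      rw [mem_sdiff]
      refine ⟨(mem_arc _).mpr ⟨(w - v) + t, by omega, by rw [add_assoc]⟩, ?_⟩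
      rw [mem_arc]
      rintro ⟨t', ht', h⟩
      exact absurd h.symm (not_modEq (by omega) (by omega))
    exact (card_arc (a := a + (w - v)) (show v ≤ n by omega)).symm.le.trans (card_le_card hsub)

/-- `A(n,d,w₁) ≤ A(n,d,w₂)` for all `w₁ < w₂ ≤ n/2` and all `d ≥ 2 w₁ - 1`. -/
theorem result (n d w₁ w₂ : ℕ) (hd : 2 * w₁ ≤ d + 1) (hd1 : 1 ≤ d) (hw : w₁ < w₂)
    (hn : 2 * w₂ ≤ n) : A n d w₁ ≤ A n d w₂ := by
  classical
  have : NeZero n := ⟨by omega⟩
  have hone : 1 ≤ A n d w₂ := by
    have : IsCode n d w₂ {arc n w₂ 0} := by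
      constructor
      · intro t ht; rw [mem_singleton] at ht; rw [ht, card_arc (by omega)]
      · intro t ht u hu htu; rw [mem_singleton] at ht hu; exact absurd (ht.trans hu.symm) htu
    simpa using le_A this
  by_cases hbig : 2 * w₁ < d
  · refine le_trans ?_ hone
    apply A_le
    intro C hC
    rw [card_le_one]
    intro s hs t ht
    by_contra hst
    have h1 := hC.2 s hs t ht hst
    obtain ⟨h2, h3, -⟩ := card_symmDiff (hC.1 s hs) (hC.1 t ht)
    omega
  have hw1 : 1 ≤ w₁ := by omega
  apply A_le
  intro C hC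
  have hdis : (C : Set (Finset (Fin n))).PairwiseDisjoint id := by
    intro s hs t ht hst
    change Disjoint s t
    have h1 := hC.2 s hs t ht hst
    obtain ⟨h2, h3, -⟩ := card_symmDiff (hC.1 s hs) (hC.1 t ht)
    rw [disjoint_iff_inter_eq_empty, ← card_eq_zero]
    omega
  have hcard : C.card * w₁ ≤ n := by
    have h1 := card_le_card (subset_univ (C.biUnion id))
    rw [card_biUnion hdis, card_univ, Fintype.card_fin,
      Finset.sum_congr rfl (fun s hs => (by rw [id, hC.1 s hs] : (id s).card = w₁))] at h1
    simpa using h1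
  -- the new code
  have key : ∀ i j, i < j → j < C.card →
      w₁ ≤ (arc n w₂ (i * w₁) \ arc n w₂ (j * w₁)).card := by
    intro i j hij hj
    obtain ⟨c, hc⟩ : ∃ c, C.card = c := ⟨_, rfl⟩
    rw [hc] at hj hcard
    have e1 : (i + 1) * w₁ ≤ j * w₁ := Nat.mul_le_mul_right _ hij
    have e2 : (j + 1) * w₁ ≤ c * w₁ := Nat.mul_le_mul_right _ hj
    have e3 : (i + 1) * w₁ = i * w₁ + w₁ := by ring
    have e4 : (j + 1) * w₁ = j * w₁ + w₁ := by ring
    apply card_sdiff_arc hn hw.le (by omega) (by omega)
  have hcode : IsCode n d w₂ ((range C.card).image (fun i => arc n w₂ (i * w₁))) := by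
    constructor
    · intro s hs
      rw [mem_image] at hs
      obtain ⟨i, -, rfl⟩ := hs
      exact card_arc (by omega)
    · intro s hs t ht hst
      rw [mem_image] at hs ht
      obtain ⟨i, hi, rfl⟩ := hs
      obtain ⟨j, hj, rfl⟩ := ht
      rw [mem_range] at hi hj
      obtain ⟨h2, h3, h4⟩ := card_symmDiff (card_arc (n := n) (w := w₂) (a := i * w₁) (by omega))
        (card_arc (n := n) (w := w₂) (a := j * w₁) (by omega))
      rcases lt_trichotomy i j with h0 | h0 | h0
      · have := key i j h0 hj
        omega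
      · exact absurd (by rw [h0]) hst
      · have := key j i h0 hi
        omega
  have hinj : ((range C.card).image (fun i => arc n w₂ (i * w₁))).card = C.card := by
    rw [card_image_of_injOn, card_range]
    intro i hi j hj h
    simp only [coe_range, Set.mem_Iio] at hi hj
    simp only at h
    rcases lt_trichotomy i j with h0 | h0 | h0
    · have := key i j h0 hj
      rw [h] at this
      simp at this
      omega
    · exact h0
    · have := key j i h0 hi
      rw [h] at this
      simp at this
      omega
  rw [← hinj]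
  exact le_A hcode

end Pool.Agent.Results.MP_55ffcb_co.LargeDistance
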