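import Mathlib

set_option autoImplicit false

namespace Pool.Agent.Results.MP_55ffcb_co.LinearRange

open Finset Polynomial

/-- `C` is a binary constant-weight code of length `n`, weight `w` and minimum distance at least
`d`; words are identified with their supports, subsets of `Fin n`, and the Hamming distance of two
words is the size of the symmetric difference of the supports. -/
def IsCode (n d w : ℕ) (C : Finset (Finset (Fin n))) : Prop :=
  (∀ s ∈ C, s.card = w) ∧ ∀ s ∈ C, ∀ t ∈ C, s ≠ t → d ≤ (symmDiff s t).card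

open Classical in
/-- `A(n,d,w)`: the largest size of a constant-weight code. -/
noncomputable def A (n d w : ℕ) : ℕ :=
  ((univ : Finset (Finset (Finset (Fin n)))).filter (IsCode n d w)).sup Finset.card

lemma le_A {n d w : ℕ} {C : Finset (Finset (Fin n))} (h : IsCode n d w C) : C.card ≤ A n d w := by
  classical
  unfold A
  apply Finset.le_sup (f := Finset.card)
  simp [h]

lemma A_le {n d w m : ℕ} (h : ∀ C, IsCode n d w C → C.card ≤ m) : A n d w ≤ m := by
  classical
  unfold A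
  apply Finset.sup_le
  intro C hC
  exact h C (by simpa using hC)

/-- cardinality of the symmetric difference of two sets of the same size -/
lemma card_symmDiff {n w : ℕ} {s t : Finset (Fin n)} (hs : s.card = w) (ht : t.card = w) :
    (symmDiff s t).card = 2 * (s \ t).card ∧ (s \ t).card + (s ∩ t).card = w ∧
      (t \ s).card = (s \ t).card := by
  have h1 : (s \ t).card + (s ∩ t).card = s.card := card_sdiff_add_card_inter s t
  have h2 : (t \ s).card + (t ∩ s).card = t.card := card_sdiff_add_card_inter t s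
  rw [inter_comm] at h2
  have h3 : (symmDiff s t).card = (s \ t).card + (t \ s).card := by
    rw [symmDiff_def, sup_eq_union, card_union_of_disjoint]
    exact disjoint_sdiff_sdiff
  omega

/-- packing bound -/
lemma packing {n d δ w : ℕ} (hd : 2 * δ ≤ d + 1) (hδ : δ ≤ w + 1)
    {C : Finset (Finset (Fin n))} (h : IsCode n d w C) :
    C.card * w.choose (w + 1 - δ) ≤ n.choose (w + 1 - δ) := by
  classical
  have hdis : (C : Set (Finset (Fin n))).PairwiseDisjoint (fun s => s.powersetCard (w + 1 - δ)) := by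
    intro s hs t ht hst
    change Disjoint (s.powersetCard (w + 1 - δ)) (t.powersetCard (w + 1 - δ))
    rw [Finset.disjoint_left]
    intro u hu hu'
    rw [mem_powersetCard] at hu hu'
    have h1 := h.2 s hs t ht hst
    obtain ⟨h2, h3, -⟩ := card_symmDiff (h.1 s hs) (h.1 t ht)
    have h4 : u.card ≤ (s ∩ t).card := card_le_card (subset_inter hu.1 hu'.1)
    omega
  have hsub : C.biUnion (fun s => s.powersetCard (w + 1 - δ)) ⊆
      (univ : Finset (Fin n)).powersetCard (w + 1 - δ) := by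
    intro u hu
    rw [mem_biUnion] at hu
    obtain ⟨s, -, hs⟩ := hu
    rw [mem_powersetCard] at hs ⊢
    exact ⟨subset_univ _, hs.2⟩
  have hc := card_le_card hsub
  rw [card_biUnion hdis, card_powersetCard, card_univ, Fintype.card_fin] at hc
  rw [Finset.sum_congr rfl (fun s hs => by rw [card_powersetCard, h.1 s hs])] at hc
  simpa using hc

/-- pigeonhole -/
lemma exists_fiber {α β : Type*} [Fintype β] [Nonempty β] [DecidableEq β] (S : Finset α) (f : α → β) :
    ∃ y, S.card ≤ Fintype.card β * (S.filter (fun x => f x = y)).card := by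
  obtain ⟨y, -, hy⟩ := Finset.exists_max_image (univ : Finset β)
    (fun y => (S.filter (fun x => f x = y)).card) univ_nonempty
  refine ⟨y, ?_⟩
  rw [Finset.card_eq_sum_card_fiberwise (f := f) (t := (univ : Finset β)) (by simp)]
  calc ∑ b, (S.filter (fun x => f x = b)).card
      ≤ ∑ _b : β, (S.filter (fun x => f x = y)).card := Finset.sum_le_sum (fun b hb => hy b hb)
    _ = _ := by simp

/-- Graham-Sloane classes over a finite field -/
lemma classes {F : Type} [Field F] [Fintype F] {n : ℕ} (ι : Fin n → F)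
    (hι : Function.Injective ι) (δ w : ℕ) :
    ∃ C : Finset (Finset (Fin n)), IsCode n (2 * δ) w C ∧
      n.choose w ≤ (Fintype.card F) ^ (δ - 1) * C.card := by
  classical
  let f : Finset (Fin n) → F[X] := fun s => ∏ a ∈ s, (X - C (ι a))
  let T : Finset (Fin n) → (Fin (δ - 1) → F) := fun s i => (f s).coeff (w - 1 - i)
  obtain ⟨y, hy⟩ := exists_fiber ((univ : Finset (Fin n)).powersetCard w) T
  have hmon : ∀ s, (f s).Monic := fun s => monic_prod_of_monic _ _ (fun a _ => monic_X_sub_C _)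
  have hdeg : ∀ s, (f s).natDegree = s.card := fun s => by
    simp only [f]
    rw [natDegree_prod_of_monic _ _ (fun a _ => monic_X_sub_C _)]
    simp
  refine ⟨((univ : Finset (Fin n)).powersetCard w).filter (fun x => T x = y), ⟨?_, ?_⟩, ?_⟩
  · intro s hs
    rw [mem_filter, mem_powersetCard] at hs
    exact hs.1.2
  · intro s hs t ht hst
    rw [mem_filter, mem_powersetCard] at hs ht
    have hsw := hs.1.2
    have htw := ht.1.2
    have hT : T s = T t := hs.2.trans ht.2.symm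
    obtain ⟨h2, h3, h4⟩ := card_symmDiff hsw htw
    by_contra hlt
    have hk : (s \ t).card < δ := by omega
    have hk1 : (s \ t).Nonempty := by
      rw [← card_pos]
      rcases Nat.eq_zero_or_pos (s \ t).card with h0 | h0
      · exfalso
        apply hst
        have e1 : s \ t = ∅ := card_eq_zero.mp h0
        have e2 : s ⊆ t := sdiff_eq_empty_iff_subset.mp e1
        exact eq_of_subset_of_card_le e2 (by omega)
      · exact h0
    obtain ⟨x, hx⟩ := hk1
    rw [mem_sdiff] at hx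
    have hD : f s - f t ≠ 0 := by
      intro h0
      have e := congrArg (fun P => P.eval (ι x)) h0
      simp only [f, eval_sub, eval_prod, eval_X, eval_C, eval_zero] at e
      rw [Finset.prod_eq_zero hx.1 (sub_self _), zero_sub, neg_eq_zero,
        Finset.prod_eq_zero_iff] at e
      obtain ⟨a, ha, hxa⟩ := e
      rw [sub_eq_zero] at hxa
      rw [hι hxa] at hx
      exact hx.2 ha
    have hfs : f s = f (s ∩ t) * f (s \ t) := by
      simp only [f]
      rw [mul_comm, ← Finset.prod_union (by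
        rw [Finset.disjoint_left]; intro a ha hb
        rw [mem_sdiff] at ha; rw [mem_inter] at hb; exact ha.2 hb.2)]
      congr 1
      ext a; simp only [mem_union, mem_sdiff, mem_inter]; tauto
    have hft : f t = f (s ∩ t) * f (t \ s) := by
      simp only [f]
      rw [mul_comm, ← Finset.prod_union (by
        rw [Finset.disjoint_left]; intro a ha hb
        rw [mem_sdiff] at ha; rw [mem_inter] at hb; exact ha.2 hb.1)]
      congr 1
      ext a; simp only [mem_union, mem_sdiff, mem_inter]; tauto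
    have hfac : f s - f t = f (s ∩ t) * (f (s \ t) - f (t \ s)) := by
      rw [mul_sub, ← hfs, ← hft]
    have hne : f (s \ t) - f (t \ s) ≠ 0 := by
      intro h0; rw [hfac, h0, mul_zero] at hD; exact hD rfl
    have hdg : (s ∩ t).card ≤ (f s - f t).natDegree := by
      rw [hfac, natDegree_mul (hmon _).ne_zero hne, hdeg]
      exact Nat.le_add_right _ _
    have hlc : (f s - f t).coeff (f s - f t).natDegree ≠ 0 := by
      rw [coeff_natDegree]; exact leadingCoeff_ne_zero.mpr hD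
    apply hlc
    rw [coeff_sub, sub_eq_zero]
    set j := (f s - f t).natDegree with hj
    rcases lt_trichotomy j w with hjw | hjw | hjw
    · have hi : w - 1 - j < δ - 1 := by omega
      have e := congrFun hT ⟨w - 1 - j, hi⟩
      simp only [T] at e
      have e2 : w - 1 - (w - 1 - j) = j := by omega
      rw [e2] at e
      exact e
    · have a1 : (f s).coeff j = 1 := by
        rw [hjw]
        have := hmon s
        rw [Monic, leadingCoeff, hdeg, hsw] at this
        exact this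
      have a2 : (f t).coeff j = 1 := by
        rw [hjw]
        have := hmon t
        rw [Monic, leadingCoeff, hdeg, htw] at this
        exact this
      rw [a1, a2]
    · rw [coeff_eq_zero_of_natDegree_lt (by rw [hdeg, hsw]; exact hjw),
        coeff_eq_zero_of_natDegree_lt (by rw [hdeg, htw]; exact hjw)]
  · rw [card_powersetCard, card_univ, Fintype.card_fin] at hy
    simpa using hy

/-- the classes of the sum modulo `n` -/
lemma classes2 {n : ℕ} (hn : 0 < n) (w : ℕ) :
    ∃ C : Finset (Finset (Fin n)), IsCode n 4 w C ∧ n.choose w ≤ n * C.card := by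
  classical
  have : NeZero n := ⟨by omega⟩
  let T : Finset (Fin n) → ZMod n := fun s => ∑ a ∈ s, ((a : ℕ) : ZMod n)
  obtain ⟨y, hy⟩ := exists_fiber ((univ : Finset (Fin n)).powersetCard w) T
  refine ⟨((univ : Finset (Fin n)).powersetCard w).filter (fun x => T x = y), ⟨?_, ?_⟩, ?_⟩
  · intro s hs
    rw [mem_filter, mem_powersetCard] at hs
    exact hs.1.2
  · intro s hs t ht hst
    rw [mem_filter, mem_powersetCard] at hs ht
    have hsw := hs.1.2
    have htw := ht.1.2
    have hT : T s = T t := hs.2.trans ht.2.symm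
    obtain ⟨h2, h3, h4⟩ := card_symmDiff hsw htw
    by_contra hlt
    have hk0 : (s \ t).card ≠ 0 := by
      intro h0
      apply hst
      have e1 : s \ t = ∅ := card_eq_zero.mp h0
      have e2 : s ⊆ t := sdiff_eq_empty_iff_subset.mp e1
      exact eq_of_subset_of_card_le e2 (by omega)
    have hk : (s \ t).card = 1 := by omega
    have hk' : (t \ s).card = 1 := by omega
    obtain ⟨x, hx⟩ := card_eq_one.mp hk
    obtain ⟨z, hz⟩ := card_eq_one.mp hk'
    have e1 : T s = ∑ a ∈ s ∩ t, ((a : ℕ) : ZMod n) + ((x : ℕ) : ZMod n) := by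
      simp only [T]
      rw [← Finset.sum_inter_add_sum_sdiff s t, hx]; simp
    have e2 : T t = ∑ a ∈ s ∩ t, ((a : ℕ) : ZMod n) + ((z : ℕ) : ZMod n) := by
      simp only [T]
      rw [← Finset.sum_inter_add_sum_sdiff t s, hz, inter_comm]; simp
    rw [e1, e2] at hT
    have e3 := add_left_cancel hT
    have e4 : (x : ℕ) = z := by
      have := (ZMod.natCast_eq_natCast_iff' _ _ _).mp e3
      rwa [Nat.mod_eq_of_lt x.2, Nat.mod_eq_of_lt z.2] at this
    have e5 : x = z := Fin.ext e4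
    have hx1 : x ∈ s \ t := by rw [hx]; simp
    have hz1 : z ∈ t \ s := by rw [hz]; simp
    rw [mem_sdiff] at hx1 hz1
    rw [e5] at hx1
    exact hx1.2 hz1.1
  · rw [card_powersetCard, card_univ, Fintype.card_fin] at hy
    simpa [ZMod.card] using hy

lemma classesPrimePow {n q : ℕ} (hq : IsPrimePow q) (hn : n ≤ q) (δ w : ℕ) :
    ∃ C : Finset (Finset (Fin n)), IsCode n (2 * δ) w C ∧
      n.choose w ≤ q ^ (δ - 1) * C.card := by
  rw [isPrimePow_nat_iff] at hq
  obtain ⟨p, k, hp, hk, rfl⟩ := hq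
  have : Fact p.Prime := ⟨hp⟩
  let _ : Fintype (GaloisField p k) := Fintype.ofFinite _
  have hcard : Fintype.card (GaloisField p k) = p ^ k := by
    rw [← Nat.card_eq_fintype_card]
    exact GaloisField.card p k (by omega)
  obtain ⟨e⟩ : Nonempty (Fin n ↪ GaloisField p k) :=
    Function.Embedding.nonempty_of_card_le (by rw [hcard, Fintype.card_fin]; exact hn)
  obtain ⟨C, hC, h⟩ := classes (F := GaloisField p k) e e.injective δ w
  rw [hcard] at h
  exact ⟨C, hC, h⟩

lemma IsCode.mono {n d d' w : ℕ} (h : d ≤ d') {C : Finset (Finset (Fin n))}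
    (hC : IsCode n d' w C) : IsCode n d w C :=
  ⟨hC.1, fun s hs t ht hst => h.trans (hC.2 s hs t ht hst)⟩

/-- abstract comparison -/
lemma compare {n d δ w₁ w₂ Q : ℕ} (hd : d = 2 * δ - 1 ∨ d = 2 * δ) (hδ : 1 ≤ δ) (hQ : 0 < Q)
    (hcl : ∃ C : Finset (Finset (Fin n)), IsCode n (2 * δ) w₂ C ∧ n.choose w₂ ≤ Q * C.card)
    (h : Q * n.choose (w₁ + 1 - δ) ≤ w₁.choose (δ - 1) * n.choose w₂) :
    A n d w₁ ≤ A n d w₂ := by
  have hδw : δ ≤ w₁ + 1 := by
    by_contra hlt
    have h1 : w₁.choose (δ - 1) = 0 := Nat.choose_eq_zero_of_lt (by omega)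
    have h2 : w₁ + 1 - δ = 0 := by omega
    rw [h1, h2, zero_mul, Nat.choose_zero_right, mul_one] at h
    omega
  have hpos : 0 < w₁.choose (δ - 1) := Nat.choose_pos (by omega)
  have hsymm : w₁.choose (w₁ + 1 - δ) = w₁.choose (δ - 1) := by
    rw [← Nat.choose_symm (show δ - 1 ≤ w₁ by omega)]
    congr 1; omega
  obtain ⟨D, hD, hDc⟩ := hcl
  apply A_le
  intro C hC
  have hp := packing (δ := δ) (by omega) hδw hC
  rw [hsymm] at hp
  refine le_trans ?_ (le_A (hD.mono (by omega)))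
  have h3 : (w₁.choose (δ - 1) * Q) * C.card ≤ (w₁.choose (δ - 1) * Q) * D.card := by
    calc (w₁.choose (δ - 1) * Q) * C.card = Q * (C.card * w₁.choose (δ - 1)) := by ring
      _ ≤ Q * n.choose (w₁ + 1 - δ) := Nat.mul_le_mul_left _ hp
      _ ≤ w₁.choose (δ - 1) * n.choose w₂ := h
      _ ≤ w₁.choose (δ - 1) * (Q * D.card) := Nat.mul_le_mul_left _ hDc
      _ = _ := by ring
  exact Nat.le_of_mul_le_mul_left h3 (Nat.mul_pos hpos hQ)

/-- trivial case: at most one codeword -/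
lemma trivialCase {n d w₁ w₂ : ℕ} (h : 2 * w₁ < d) (hw : w₂ ≤ n) : A n d w₁ ≤ A n d w₂ := by
  have h1 : A n d w₁ ≤ 1 := by
    apply A_le
    intro C hC
    rw [card_le_one]
    intro s hs t ht
    by_contra hst
    have h1 := hC.2 s hs t ht hst
    obtain ⟨h2, h3, -⟩ := card_symmDiff (hC.1 s hs) (hC.1 t ht)
    omega
  obtain ⟨s, -, hs⟩ := exists_subset_card_eq (s := (univ : Finset (Fin n))) (n := w₂) (by simpa using hw)
  refine h1.trans ?_
  have : IsCode n d w₂ {s} := by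
    constructor
    · intro t ht; rw [mem_singleton] at ht; rw [ht, hs]
    · intro t ht u hu htu; rw [mem_singleton] at ht hu; exact absurd (ht.trans hu.symm) htu
  simpa using le_A this

lemma choose_mono {n a b : ℕ} (hab : a ≤ b) (hb : 2 * b ≤ n) : n.choose a ≤ n.choose b := by
  induction b, hab using Nat.le_induction with
  | base => exact le_rfl
  | succ m hm ih =>
    exact (ih (by omega)).trans (Nat.choose_le_succ_of_lt_half_left (by omega))

/-- numerical part -/
lemma numeric {n δ w₁ w₂ Q : ℕ} (hδ : 1 ≤ δ) (hδw : δ ≤ w₁ + 1) (hw : w₁ < w₂) (hn : 2 * w₂ ≤ n)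
    (h : (w₁ + 1) * (δ - 1).factorial * Q ≤ (n - w₁).ascFactorial δ) :
    Q * n.choose (w₁ + 1 - δ) ≤ w₁.choose (δ - 1) * n.choose w₂ := by
  refine le_trans ?_ (Nat.mul_le_mul_left _ (choose_mono (show w₁ + 1 ≤ w₂ by omega) hn))
  obtain ⟨e, rfl⟩ : ∃ e, δ = e + 1 := ⟨δ - 1, by omega⟩
  obtain ⟨t, ht⟩ : ∃ t, t = w₁ + 1 - (e + 1) := ⟨_, rfl⟩
  rw [← ht]
  simp only [Nat.add_sub_cancel] at h ⊢
  have h1 : n.choose (w₁ + 1) * (w₁ + 1).choose t = n.choose t * (n - t).choose (w₁ + 1 - t) :=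
    Nat.choose_mul (by omega)
  have h2 : w₁ + 1 - t = e + 1 := by omega
  rw [h2] at h1
  have h3 : (w₁ + 1).choose t = (w₁ + 1).choose (e + 1) := by
    rw [← Nat.choose_symm (show e + 1 ≤ w₁ + 1 by omega)]
    congr 1
  rw [h3] at h1
  have h4 : (w₁ + 1) * w₁.choose e = (w₁ + 1).choose (e + 1) * (e + 1) := Nat.add_one_mul_choose_eq w₁ e
  have h5 : (n - w₁).ascFactorial (e + 1) = (e + 1).factorial * (n - t).choose (e + 1) := by
    obtain ⟨m, hm⟩ : ∃ m, n - w₁ = m + 1 := ⟨n - w₁ - 1, by omega⟩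
    rw [hm, Nat.ascFactorial_eq_factorial_mul_choose]
    congr 2
    omega
  have h6 : (w₁ + 1) * Q ≤ (e + 1) * (n - t).choose (e + 1) := by
    rw [h5, Nat.factorial_succ] at h
    have hf : 0 < e.factorial := Nat.factorial_pos e
    apply Nat.le_of_mul_le_mul_left _ hf
    calc e.factorial * ((w₁ + 1) * Q) = (w₁ + 1) * e.factorial * Q := by ring
      _ ≤ (e + 1) * e.factorial * (n - t).choose (e + 1) := h
      _ = _ := by ring
  have hpos : 0 < (w₁ + 1).choose (e + 1) := Nat.choose_pos (by omega)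
  apply Nat.le_of_mul_le_mul_left _ (Nat.mul_pos hpos (Nat.succ_pos e))
  calc ((w₁ + 1).choose (e + 1) * (e + 1)) * (Q * n.choose t)
      = ((w₁ + 1) * Q) * (w₁.choose e * n.choose t) := by rw [← h4]; ring
    _ ≤ ((e + 1) * (n - t).choose (e + 1)) * (w₁.choose e * n.choose t) :=
        Nat.mul_le_mul_right _ h6
    _ = (e + 1) * w₁.choose e * (n.choose t * (n - t).choose (e + 1)) := by ring
    _ = (e + 1) * w₁.choose e * (n.choose (w₁ + 1) * (w₁ + 1).choose (e + 1)) := by rw [h1]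
    _ = ((w₁ + 1).choose (e + 1) * (e + 1)) * (w₁.choose e * n.choose (w₁ + 1)) := by ring

lemma criterion {n d δ w₁ w₂ q : ℕ} (hd : d = 2 * δ - 1 ∨ d = 2 * δ) (hδ : 1 ≤ δ)
    (hw : w₁ < w₂) (hn : 2 * w₂ ≤ n) (hq : (IsPrimePow q ∧ n ≤ q) ∨ (δ ≤ 2 ∧ q = n))
    (h : q ^ (δ - 1) * n.choose (w₁ + 1 - δ) ≤ w₁.choose (δ - 1) * n.choose w₂ ∨
      (w₁ + 1) * (δ - 1).factorial * q ^ (δ - 1) ≤ (n - w₁).ascFactorial δ) :
    A n d w₁ ≤ A n d w₂ := by
  by_cases hδw : δ ≤ w₁ + 1
  · have h' : q ^ (δ - 1) * n.choose (w₁ + 1 - δ) ≤ w₁.choose (δ - 1) * n.choose w₂ := by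
      rcases h with h | h
      · exact h
      · exact numeric hδ hδw hw hn h
    rcases hq with ⟨hq, hnq⟩ | ⟨hδ2, rfl⟩
    · exact compare hd hδ (pow_pos hq.pos _) (classesPrimePow hq hnq δ w₂) h'
    · refine compare hd hδ (pow_pos (by omega) _) ?_ h'
      obtain ⟨C, hC, hCc⟩ := classes2 (n := q) (by omega) w₂
      rcases (show δ = 1 ∨ δ = 2 by omega) with rfl | rfl
      · refine ⟨(univ : Finset (Fin q)).powersetCard w₂, ⟨?_, ?_⟩, ?_⟩
        · intro s hs
          exact (mem_powersetCard.mp hs).2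
        · intro s hs t ht hst
          obtain ⟨h2, h3, -⟩ := card_symmDiff (mem_powersetCard.mp hs).2 (mem_powersetCard.mp ht).2
          have hk0 : (s \ t).card ≠ 0 := by
            intro h0
            apply hst
            have e1 : s \ t = ∅ := card_eq_zero.mp h0
            have e2 : s ⊆ t := sdiff_eq_empty_iff_subset.mp e1
            exact eq_of_subset_of_card_le e2
              (by rw [(mem_powersetCard.mp hs).2, (mem_powersetCard.mp ht).2])
          omega
        · simp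
      · exact ⟨C, hC, by simpa using hCc⟩
  · exact trivialCase (by omega) (by omega)

lemma linear {n d δ w₁ w₂ : ℕ} (hd : d = 2 * δ - 1 ∨ d = 2 * δ) (hδ : 1 ≤ δ)
    (hw : w₁ < w₂) (hn : 2 * w₂ ≤ n) (h : (δ - 1).factorial * 4 ^ δ * w₁ ≤ n) :
    A n d w₁ ≤ A n d w₂ := by
  rcases Nat.eq_zero_or_pos w₁ with h0 | h0
  · exact trivialCase (by omega) (by omega)
  obtain ⟨p, hp, hnp, hp2⟩ := Nat.exists_prime_lt_and_le_two_mul n (by omega)
  refine criterion hd hδ hw hn (q := p) (Or.inl ⟨hp.isPrimePow, hnp.le⟩) (Or.inr ?_)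
  obtain ⟨e, rfl⟩ : ∃ e, δ = e + 1 := ⟨δ - 1, by omega⟩
  simp only [Nat.add_sub_cancel] at h ⊢
  refine le_trans ?_ (Nat.pow_succ_le_ascFactorial (n - w₁) (e + 1))
  have h1 : p ^ e ≤ (2 * n) ^ e := Nat.pow_le_pow_left hp2 e
  have h2 : n ^ (e + 1) ≤ (2 * (n - w₁)) ^ (e + 1) := Nat.pow_le_pow_left (by omega) _
  have h3 : 0 < 2 ^ (e + 1) := by positivity
  apply Nat.le_of_mul_le_mul_left _ h3
  calc 2 ^ (e + 1) * ((w₁ + 1) * e.factorial * p ^ e)
      ≤ 2 ^ (e + 1) * ((2 * w₁) * e.factorial * (2 * n) ^ e) := by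
        apply Nat.mul_le_mul_left
        exact Nat.mul_le_mul (Nat.mul_le_mul_right _ (by omega)) h1
    _ = (e.factorial * 4 ^ (e + 1) * w₁) * n ^ e := by
        rw [mul_pow, show (4 : ℕ) = 2 * 2 by norm_num, mul_pow]
        ring
    _ ≤ n * n ^ e := Nat.mul_le_mul_right _ h
    _ = n ^ (e + 1) := by ring
    _ ≤ (2 * (n - w₁)) ^ (e + 1) := h2
    _ = 2 ^ (e + 1) * (n - w₁) ^ (e + 1) := by rw [mul_pow]

/-- growth of binomial coefficients below the middle -/
lemma growth {n m : ℕ} (hm : 2 * m ≤ n) :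
    ∀ j, j ≤ m → (n + 2 * j ^ 2) * n.choose (m - j) ≤ n * n.choose m := by
  intro j
  induction j with
  | zero => intro _; simp
  | succ j ih =>
    intro hj
    have ih' := ih (by omega)
    obtain ⟨k, hk⟩ : ∃ k, m = k + j + 1 := ⟨m - j - 1, by omega⟩
    have e1 : m - j = k + 1 := by omega
    have e2 : m - (j + 1) = k := by omega
    rw [e1] at ih'
    rw [e2]
    have h1 : n.choose (k + 1) * (k + 1) = n.choose k * (n - k) := Nat.choose_succ_right_eq n k
    obtain ⟨l, hl⟩ : ∃ l, n = k + l := ⟨n - k, by omega⟩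
    have e3 : n - k = l := by omega
    rw [e3] at h1
    have hkl : k + 2 * j + 2 ≤ l := by omega
    have h2 : (n + 2 * (j + 1) ^ 2) * (k + 1) ≤ (n + 2 * j ^ 2) * l := by
      obtain ⟨r, rfl⟩ : ∃ r, l = k + 2 * j + 2 + r := ⟨l - (k + 2 * j + 2), by omega⟩
      rw [hl]
      nlinarith [Nat.zero_le r, Nat.zero_le j, Nat.zero_le k, Nat.zero_le (r * k),
        Nat.zero_le (r * j), Nat.zero_le (r * r), Nat.zero_le (j * k), Nat.zero_le (j * j),
        Nat.zero_le (j * j * j), Nat.zero_le (r * (j * j))]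
    apply Nat.le_of_mul_le_mul_left _ (Nat.succ_pos k)
    calc (k + 1) * ((n + 2 * (j + 1) ^ 2) * n.choose k)
        = ((n + 2 * (j + 1) ^ 2) * (k + 1)) * n.choose k := by ring
      _ ≤ ((n + 2 * j ^ 2) * l) * n.choose k := Nat.mul_le_mul_right _ h2
      _ = (n + 2 * j ^ 2) * (n.choose k * l) := by ring
      _ = (n + 2 * j ^ 2) * (n.choose (k + 1) * (k + 1)) := by rw [h1]
      _ = (k + 1) * ((n + 2 * j ^ 2) * n.choose (k + 1)) := by ring
      _ ≤ (k + 1) * (n * n.choose m) := Nat.mul_le_mul_left _ ih'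

lemma doubling {n a s : ℕ} (h0 : 0 < n) (h : 2 * (a + s) ≤ n) (hs : n ≤ 2 * s ^ 2) :
    2 * n.choose a ≤ n.choose (a + s) := by
  have h1 := growth h s (by omega)
  rw [Nat.add_sub_cancel] at h1
  apply Nat.le_of_mul_le_mul_left _ h0
  calc n * (2 * n.choose a) = (n + n) * n.choose a := by ring
    _ ≤ (n + 2 * s ^ 2) * n.choose a := Nat.mul_le_mul_right _ (by omega)
    _ ≤ n * n.choose (a + s) := h1

lemma doublings {n a s : ℕ} (hn : 0 < n) (hs : n ≤ 2 * s ^ 2) :
    ∀ L, 2 * (a + L * s) ≤ n → 2 ^ L * n.choose a ≤ n.choose (a + L * s) := by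
  intro L
  induction L with
  | zero => intro _; simp
  | succ L ih =>
    intro h
    have e : a + (L + 1) * s = (a + L * s) + s := by ring
    rw [e] at h ⊢
    calc 2 ^ (L + 1) * n.choose a = 2 * (2 ^ L * n.choose a) := by ring
      _ ≤ 2 * n.choose (a + L * s) := Nat.mul_le_mul_left _ (ih (by omega))
      _ ≤ n.choose (a + L * s + s) := doubling hn h hs

/-- second numerical criterion -/
lemma numeric2 {n δ w₁ w₂ Q : ℕ} (hδ : 1 ≤ δ) (hδw : δ ≤ w₁ + 1) (hn : w₁ ≤ n)
    (h : Q * (δ - 1).factorial * n.choose w₁ ≤ (n - w₁ + 1).ascFactorial (δ - 1) * n.choose w₂) :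
    Q * n.choose (w₁ + 1 - δ) ≤ w₁.choose (δ - 1) * n.choose w₂ := by
  obtain ⟨e, rfl⟩ : ∃ e, δ = e + 1 := ⟨δ - 1, by omega⟩
  obtain ⟨t, ht⟩ : ∃ t, t = w₁ + 1 - (e + 1) := ⟨_, rfl⟩
  rw [← ht]
  simp only [Nat.add_sub_cancel] at h ⊢
  have h1 : n.choose w₁ * w₁.choose t = n.choose t * (n - t).choose (w₁ - t) :=
    Nat.choose_mul (by omega)
  have h2 : w₁ - t = e := by omega
  have h3 : w₁.choose t = w₁.choose e := by
    rw [← Nat.choose_symm (show e ≤ w₁ by omega)]
    congr 1; omega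
  rw [h2, h3] at h1
  have h5 : (n - w₁ + 1).ascFactorial e = e.factorial * (n - t).choose e := by
    rw [Nat.ascFactorial_eq_factorial_mul_choose]
    congr 2
    omega
  have hpos : 0 < (n - w₁ + 1).ascFactorial e := Nat.ascFactorial_pos _ _
  apply Nat.le_of_mul_le_mul_left _ hpos
  calc (n - w₁ + 1).ascFactorial e * (Q * n.choose t)
      = Q * e.factorial * (n.choose t * (n - t).choose e) := by rw [h5]; ring
    _ = Q * e.factorial * (n.choose w₁ * w₁.choose e) := by rw [h1]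
    _ = w₁.choose e * (Q * e.factorial * n.choose w₁) := by ring
    _ ≤ w₁.choose e * ((n - w₁ + 1).ascFactorial e * n.choose w₂) := Nat.mul_le_mul_left _ h
    _ = _ := by ring

lemma sqrtGap {n d δ w₁ w₂ L s : ℕ} (hd : d = 2 * δ - 1 ∨ d = 2 * δ) (hδ : 1 ≤ δ)
    (hw : w₁ < w₂) (hn : 2 * w₂ ≤ n) (hs : n ≤ 2 * s ^ 2)
    (hL : 4 ^ (δ - 1) * (δ - 1).factorial ≤ 2 ^ L) (hgap : w₁ + L * s ≤ w₂) :
    A n d w₁ ≤ A n d w₂ := by
  by_cases hδw : δ ≤ w₁ + 1
  · obtain ⟨p, hp, hnp, hp2⟩ := Nat.exists_prime_lt_and_le_two_mul n (by omega)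
    refine criterion hd hδ hw hn (q := p) (Or.inl ⟨hp.isPrimePow, hnp.le⟩) (Or.inl ?_)
    apply numeric2 hδ hδw (by omega)
    obtain ⟨e, rfl⟩ : ∃ e, δ = e + 1 := ⟨δ - 1, by omega⟩
    simp only [Nat.add_sub_cancel] at hL ⊢
    have h1 : p ^ e ≤ 4 ^ e * (n - w₁ + 1).ascFactorial e := by
      calc p ^ e ≤ (2 * n) ^ e := Nat.pow_le_pow_left hp2 e
        _ ≤ (4 * (n - w₁ + 1)) ^ e := Nat.pow_le_pow_left (by omega) e
        _ = 4 ^ e * (n - w₁ + 1) ^ e := by rw [mul_pow]
        _ ≤ _ := Nat.mul_le_mul_left _ (Nat.pow_succ_le_ascFactorial _ _)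
    have h2 : 2 ^ L * n.choose w₁ ≤ n.choose w₂ :=
      (doublings (by omega) hs L (by omega)).trans (choose_mono hgap hn)
    calc p ^ e * e.factorial * n.choose w₁
        ≤ (4 ^ e * (n - w₁ + 1).ascFactorial e) * e.factorial * n.choose w₁ :=
          Nat.mul_le_mul_right _ (Nat.mul_le_mul_right _ h1)
      _ = (n - w₁ + 1).ascFactorial e * ((4 ^ e * e.factorial) * n.choose w₁) := by ring
      _ ≤ (n - w₁ + 1).ascFactorial e * (2 ^ L * n.choose w₁) :=
          Nat.mul_le_mul_left _ (Nat.mul_le_mul_right _ hL)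
      _ ≤ (n - w₁ + 1).ascFactorial e * n.choose w₂ := Nat.mul_le_mul_left _ h2
  · exact trivialCase (by omega) (by omega)

/-- Monotonicity of `A(n,d,w)` in the weight, `A(n,d,w₁) ≤ A(n,d,w₂)` for `w₁ < w₂ ≤ n/2`,
with `δ = ⌈d/2⌉`:
(1) for every distance, if `w₁ ≤ n/(4^δ (δ-1)!)`;
(2) for every distance, if `w₂ - w₁ ≥ L √(n/2)` (rounded up), where `4^(δ-1) (δ-1)! ≤ 2^L`;
(3) for all distances, if `n` is large in terms of the lower weight only;
(4) for `d ≤ 4`, if `w₁ + 1 ≤ 3n/8` or `w₂ - w₁ ≥ √(n/2)`;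
(5) for `d ≤ 2` always;
(6) the general criterion behind this, for every prime power `q ≥ n` (and `q = n` if `d ≤ 4`). -/
theorem result :
    (∀ n d δ w₁ w₂ : ℕ, (d = 2 * δ - 1 ∨ d = 2 * δ) → 1 ≤ δ → w₁ < w₂ → 2 * w₂ ≤ n →
      (δ - 1).factorial * 4 ^ δ * w₁ ≤ n → A n d w₁ ≤ A n d w₂) ∧
    (∀ n d δ w₁ w₂ L s : ℕ, (d = 2 * δ - 1 ∨ d = 2 * δ) → 1 ≤ δ → w₁ < w₂ → 2 * w₂ ≤ n →
      n ≤ 2 * s ^ 2 → 4 ^ (δ - 1) * (δ - 1).factorial ≤ 2 ^ L → w₁ + L * s ≤ w₂ →
      A n d w₁ ≤ A n d w₂) ∧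
    (∀ n d w₁ w₂ : ℕ, 1 ≤ d → w₁ < w₂ → 2 * w₂ ≤ n → w₁.factorial * 4 ^ w₁ ≤ n →
      A n d w₁ ≤ A n d w₂) ∧
    (∀ n d w₁ w₂ : ℕ, 1 ≤ d → d ≤ 4 → w₁ < w₂ → 2 * w₂ ≤ n →
      (8 * (w₁ + 1) ≤ 3 * n ∨ n ≤ 2 * (w₂ - w₁) ^ 2) → A n d w₁ ≤ A n d w₂) ∧
    (∀ n d w₁ w₂ : ℕ, 1 ≤ d → d ≤ 2 → w₁ < w₂ → 2 * w₂ ≤ n → A n d w₁ ≤ A n d w₂) ∧
    (∀ n d δ w₁ w₂ q : ℕ, (d = 2 * δ - 1 ∨ d = 2 * δ) → 1 ≤ δ → w₁ < w₂ → 2 * w₂ ≤ n →
      ((IsPrimePow q ∧ n ≤ q) ∨ (δ ≤ 2 ∧ q = n)) →
      (q ^ (δ - 1) * n.choose (w₁ + 1 - δ) ≤ w₁.choose (δ - 1) * n.choose w₂ ∨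
        (w₁ + 1) * (δ - 1).factorial * q ^ (δ - 1) ≤ (n - w₁).ascFactorial δ) →
      A n d w₁ ≤ A n d w₂) := by
  refine ⟨?_, ?_, ?_, ?_, ?_, ?_⟩
  · intro n d δ w₁ w₂ hd hδ hw hn h
    exact linear hd hδ hw hn h
  · intro n d δ w₁ w₂ L s hd hδ hw hn hs hL hgap
    exact sqrtGap hd hδ hw hn hs hL hgap
  · intro n d w₁ w₂ hd hw hn h
    by_cases hdw : 2 * w₁ < d
    · exact trivialCase hdw (by omega)
    · obtain ⟨δ, hδ⟩ : ∃ δ, δ = (d + 1) / 2 := ⟨_, rfl⟩
      refine linear (δ := δ) (by omega) (by omega) hw hn (le_trans ?_ h)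
      obtain ⟨v, rfl⟩ : ∃ v, w₁ = v + 1 := ⟨w₁ - 1, by omega⟩
      have h1 : (δ - 1).factorial ≤ v.factorial := Nat.factorial_le (by omega)
      have h2 : 4 ^ δ ≤ 4 ^ (v + 1) := Nat.pow_le_pow_right (by norm_num) (by omega)
      calc (δ - 1).factorial * 4 ^ δ * (v + 1)
          ≤ v.factorial * 4 ^ (v + 1) * (v + 1) :=
            Nat.mul_le_mul_right _ (Nat.mul_le_mul h1 h2)
        _ = (v + 1).factorial * 4 ^ (v + 1) := by rw [Nat.factorial_succ]; ring
  · intro n d w₁ w₂ hd1 hd4 hw hn h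
    obtain ⟨δ, hδ⟩ : ∃ δ, δ = (d + 1) / 2 := ⟨_, rfl⟩
    rcases h with h | h
    · refine criterion (δ := δ) (q := n) (by omega) (by omega) hw hn (Or.inr ⟨by omega, rfl⟩)
        (Or.inr ?_)
      rcases (show δ = 1 ∨ δ = 2 by omega) with rfl | rfl
      · simp [Nat.ascFactorial_succ]
        omega
      · obtain ⟨m, hm⟩ : ∃ m, m = n - w₁ := ⟨_, rfl⟩
        have hnm : n = m + w₁ := by omega
        rw [← hm]
        have e1 : (w₁ + 1) * (2 - 1).factorial * n ^ (2 - 1) = (w₁ + 1) * (m + w₁) := by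
          rw [hnm]; simp
        have e2 : m.ascFactorial 2 = (m + 1) * m := by
          simp [Nat.ascFactorial_succ]
        rw [e1, e2]
        have h5 : 5 * (w₁ + 1) ≤ 3 * m := by omega
        have h6 : 5 * (m + w₁) ≤ 8 * m := by omega
        have h7 := Nat.mul_le_mul h5 h6
        nlinarith
    · by_cases hδw : δ ≤ w₁ + 1
      · refine criterion (δ := δ) (q := n) (by omega) (by omega) hw hn (Or.inr ⟨by omega, rfl⟩)
          (Or.inl ?_)
        apply numeric2 (by omega) hδw (by omega)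
        have h2 : 2 * n.choose w₁ ≤ n.choose w₂ := by
          have := doubling (n := n) (a := w₁) (s := w₂ - w₁) (by omega) (by omega) h
          rwa [show w₁ + (w₂ - w₁) = w₂ by omega] at this
        rcases (show δ = 1 ∨ δ = 2 by omega) with rfl | rfl
        · simp
          omega
        · simp [Nat.ascFactorial_succ]
          calc n * n.choose w₁ ≤ (2 * (n - w₁ + 1)) * n.choose w₁ :=
                Nat.mul_le_mul_right _ (by omega)
            _ = (n - w₁ + 1) * (2 * n.choose w₁) := by ring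
            _ ≤ (n - w₁ + 1) * n.choose w₂ := Nat.mul_le_mul_left _ h2
      · exact trivialCase (by omega) (by omega)
  · intro n d w₁ w₂ hd1 hd2 hw hn
    refine criterion (δ := 1) (q := n) (by omega) (by omega) hw hn (Or.inr ⟨by omega, rfl⟩)
      (Or.inr ?_)
    simp [Nat.ascFactorial_succ]
    omega
  · intro n d δ w₁ w₂ q hd hδ hw hn hq h
    exact criterion hd hδ hw hn hq h

end Pool.Agent.Results.MP_55ffcb_co.LinearRange
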